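import Mathlib
import Pool.Agent.R179.Per.Stmts

open MeasureTheory Metric Set Pool.Agent.R179.Per

namespace Pool.Agent.R971.Per

/-- Equal distances give an isometry of the ambient space. -/
theorem exists_isom (x y : Fin 4 → E6) (h : ∀ i j, dist (x i) (x j) = dist (y i) (y j)) :
    ∃ L : E6 ≃ₗᵢ[ℝ] E6, ∀ i, L (x i - x 3) = y i - y 3 := by
  classical
  set u : Fin 4 → E6 := fun i => x i - x 3 with hu
  set v : Fin 4 → E6 := fun i => y i - y 3 with hv
  have hn : ∀ i, ‖u i‖ = ‖v i‖ := by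
    intro i
    rw [hu, hv]
    simp only [← dist_eq_norm]
    exact h i 3
  have hd : ∀ i j, ‖u i - u j‖ = ‖v i - v j‖ := by
    intro i j
    have := h i j
    rw [dist_eq_norm, dist_eq_norm] at this
    simpa [hu, hv] using this
  have hin : ∀ i j, inner ℝ (u i) (u j) = inner ℝ (v i) (v j) := by
    intro i j
    have e1 := norm_sub_sq_real (u i) (u j)
    have e2 := norm_sub_sq_real (v i) (v j)
    rw [hd i j, hn i, hn j] at e1
    linarith
  let A : (Fin 4 → ℝ) →ₗ[ℝ] E6 := Fintype.linearCombination ℝ u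
  let B : (Fin 4 → ℝ) →ₗ[ℝ] E6 := Fintype.linearCombination ℝ v
  have hA : ∀ c, A c = ∑ i, c i • u i := fun c => by simp [A, Fintype.linearCombination_apply]
  have hB : ∀ c, B c = ∑ i, c i • v i := fun c => by simp [B, Fintype.linearCombination_apply]
  have hAB : ∀ c, ‖A c‖ = ‖B c‖ := by
    intro c
    have e : inner ℝ (A c) (A c) = inner ℝ (B c) (B c) := by
      rw [hA, hB]
      simp only [inner_sum, sum_inner, inner_smul_left, inner_smul_right, hin]
    rw [real_inner_self_eq_norm_sq, real_inner_self_eq_norm_sq] at e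
    exact (sq_eq_sq₀ (norm_nonneg _) (norm_nonneg _)).1 e
  have hker : LinearMap.ker A ≤ LinearMap.ker B := by
    intro c hc
    rw [LinearMap.mem_ker] at hc ⊢
    rw [← norm_eq_zero, ← hAB, hc, norm_zero]
  let L0 : LinearMap.range A →ₗ[ℝ] E6 :=
    ((LinearMap.ker A).liftQ B hker).comp (LinearMap.quotKerEquivRange A).symm.toLinearMap
  have hL0 : ∀ c (hc : A c ∈ LinearMap.range A), L0 ⟨A c, hc⟩ = B c := by
    intro c hc
    simp only [L0, LinearMap.comp_apply, LinearEquiv.coe_coe]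
    rw [LinearMap.quotKerEquivRange_symm_apply_image]
    simp
  have hiso : ∀ z, ‖L0 z‖ = ‖z‖ := by
    intro z
    obtain ⟨c, hc⟩ := z.2
    have : z = ⟨A c, LinearMap.mem_range_self A c⟩ := Subtype.ext hc.symm
    rw [this, hL0]
    exact (hAB c).symm
  let L1 : LinearMap.range A →ₗᵢ[ℝ] E6 := ⟨L0, hiso⟩
  let L2 : E6 →ₗᵢ[ℝ] E6 := L1.extend
  refine ⟨L2.toLinearIsometryEquiv rfl, fun i => ?_⟩
  have h1 : A (Pi.single i 1) = u i := by
    rw [hA]
    simp [Pi.single_apply]
  have h2 : B (Pi.single i 1) = v i := by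
    rw [hB]
    simp [Pi.single_apply]
  have hm : A (Pi.single i 1) ∈ LinearMap.range A := ⟨_, rfl⟩
  have h3 : L2 (A (Pi.single i 1)) = B (Pi.single i 1) := by
    have := LinearIsometry.extend_apply L1 ⟨A (Pi.single i 1), hm⟩
    rw [show L2 (A (Pi.single i 1)) = L1.extend (A (Pi.single i 1)) from rfl, this]
    exact hL0 _ hm
  rw [h1, h2] at h3
  exact h3

theorem g_ok : St_G := by
  intro φ x y h
  obtain ⟨L, hL⟩ := exists_isom x y h
  unfold J
  set F : E6 → ℝ := fun z => deriv (deriv φ) (⨅ i, dist z (y i) ^ 2) with hF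
  have e1 : ∫ z, F z = ∫ z, F (z + y 3) := (integral_add_right_eq_self F (y 3)).symm
  have e2 : ∫ z, F (z + y 3) = ∫ z, F (L z + y 3) :=
    (L.measurePreserving.integral_comp L.toHomeomorph.measurableEmbedding
      (fun z => F (z + y 3))).symm
  have e3 : ∫ z, F (L z + y 3) = ∫ z, F (L (z - x 3) + y 3) :=
    (integral_sub_right_eq_self (fun z => F (L z + y 3)) (x 3)).symm
  rw [e1, e2, e3]
  congr 1
  funext z
  rw [hF]
  simp only
  congr 1
  congr 1
  funext i
  congr 1
  have : y i = L (x i - x 3) + y 3 := by rw [hL]; abel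
  rw [this, dist_add_right, L.dist_map, dist_sub_right]

theorem lift_cont (p : Fin 4 → Pl) (i : Fin 4) : Continuous fun δ : ℝ => lift δ p i := by
  unfold lift
  refine (PiLp.continuous_toLp 2 _).comp ?_
  refine continuous_pi fun j => ?_
  fin_cases j <;> fin_cases i <;> simp <;> fun_prop

theorem k_ok : St_K := by
  intro φ hφ p
  have hc : Continuous (deriv (deriv φ)) := by
    have h1 : ContDiff ℝ 3 (deriv φ) := by
      have h4 : ContDiff ℝ (3 + 1) φ := by
        have h5 := hφ.smooth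
        rwa [show (4 : WithTop ℕ∞) = 3 + 1 from rfl] at h5
      exact ((contDiff_succ_iff_deriv (n := 3)).1 h4).2.2
    have h2 : ContDiff ℝ 2 (deriv (deriv φ)) := by
      have h4 : ContDiff ℝ (2 + 1) (deriv φ) := by
        rwa [show (3 : WithTop ℕ∞) = 2 + 1 from rfl] at h1
      exact ((contDiff_succ_iff_deriv (n := 2)).1 h4).2.2
    exact h2.continuous
  have hs : HasCompactSupport (deriv (deriv φ)) := hφ.cpt.deriv.deriv
  obtain ⟨R, hR0, hR⟩ : ∃ R : ℝ, 0 ≤ R ∧ ∀ s, R < s → deriv (deriv φ) s = 0 := by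
    obtain ⟨R, hR⟩ := hs.isCompact.isBounded.subset_closedBall 0
    refine ⟨max R 0, le_max_right _ _, fun s hs' => ?_⟩
    by_contra hne
    have : s ∈ closedBall (0:ℝ) R := hR (subset_tsupport _ hne)
    rw [mem_closedBall, Real.dist_eq, sub_zero] at this
    have := le_abs_self s
    have := le_max_left R 0
    linarith
  have hcont : Continuous fun q : ℝ × E6 => ⨅ i, dist q.2 (lift q.1 p i) ^ 2 := by
    have : (fun q : ℝ × E6 => ⨅ i, dist q.2 (lift q.1 p i) ^ 2) =
        fun q => Finset.univ.inf' ⟨0, Finset.mem_univ _⟩ fun i : Fin 4 => dist q.2 (lift q.1 p i) ^ 2 := by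
      funext q
      rw [Finset.inf'_univ_eq_ciInf]
    rw [this]
    refine Continuous.finset_inf'_apply _ fun i _ => ?_
    exact ((continuous_snd.dist ((lift_cont p i).comp continuous_fst))).pow 2
  -- a bound for the centres
  obtain ⟨M, hM⟩ : ∃ M : ℝ, ∀ δ ∈ Icc (0:ℝ) 1, ∀ i, ‖lift δ p i‖ ≤ M := by
    have hM : ∀ i, ∃ M : ℝ, ∀ δ ∈ Icc (0:ℝ) 1, ‖lift δ p i‖ ≤ M := by
      intro i
      obtain ⟨M, hM⟩ := (isCompact_Icc (a := (0:ℝ)) (b := 1)).exists_bound_of_continuousOn
        (lift_cont p i).continuousOn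
      exact ⟨M, hM⟩
    choose M hM using hM
    refine ⟨∑ i, |M i|, fun δ hδ i => (hM i δ hδ).trans ((le_abs_self _).trans ?_)⟩
    exact Finset.single_le_sum (f := fun i => |M i|) (fun j _ => abs_nonneg _) (Finset.mem_univ i)
  set K : Set E6 := closedBall 0 (M + R + 1) with hK
  have key : ∀ δ ∈ Icc (0:ℝ) 1, J φ (lift δ p) =
      ∫ y in K, deriv (deriv φ) (⨅ i, dist y (lift δ p i) ^ 2) := by
    intro δ hδ
    unfold J
    rw [setIntegral_eq_integral_of_forall_compl_eq_zero]
    intro y hy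
    rw [hK, mem_closedBall, dist_zero_right, not_le] at hy
    apply hR
    have : (R + 1) ^ 2 ≤ ⨅ i, dist y (lift δ p i) ^ 2 := by
      refine le_ciInf fun i => ?_
      have h1 : ‖y‖ - ‖lift δ p i‖ ≤ dist y (lift δ p i) := by
        rw [dist_eq_norm]; exact norm_sub_norm_le _ _
      have h2 := hM δ hδ i
      have h3 : R + 1 ≤ dist y (lift δ p i) := by linarith
      exact pow_le_pow_left₀ (by linarith) h3 2
    nlinarith
  have hcont2 : Continuous fun δ : ℝ =>
      ∫ y in K, deriv (deriv φ) (⨅ i, dist y (lift δ p i) ^ 2) := by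
    apply continuous_parametric_integral_of_continuous
      (f := fun (δ : ℝ) (y : E6) => deriv (deriv φ) (⨅ i, dist y (lift δ p i) ^ 2))
    · exact hc.comp hcont
    · exact isCompact_closedBall _ _
  have h0 := key 0 ⟨le_refl _, zero_le_one⟩
  rw [h0]
  refine Filter.Tendsto.congr' ?_ (hcont2.continuousAt.tendsto.mono_left nhdsWithin_le_nhds)
  have : Ioo (0:ℝ) 1 ∈ nhdsWithin (0:ℝ) (Ioi 0) := Ioo_mem_nhdsGT zero_lt_one
  filter_upwards [this] with δ hδ
  exact (key δ ⟨hδ.1.le, hδ.2.le⟩).symm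

end Pool.Agent.R971.Per
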