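import Mathlib
import Pool.Agent.R179.Per.Stmts

open MeasureTheory Metric Set Pool.Agent.R179.Per

namespace Pool.Agent.R971.Per

/-- Expansion of the quadratic form. -/
theorem quad_exp (D : Fin 4 → Fin 4 → ℝ) (hs : ∀ i j, D i j = D j i) (hd : ∀ i, D i i = 0)
    (c : Fin 4 → ℝ) : ∑ i, ∑ j, c i * c j * D i j =
      2 * (c 0 * c 1 * D 0 1 + c 0 * c 2 * D 2 0 + c 0 * c 3 * D 3 0 + c 1 * c 2 * D 2 1 +
        c 1 * c 3 * D 3 1 + c 2 * c 3 * D 2 3) := by
  simp only [Fin.sum_univ_four, hd]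
  rw [hs 0 2, hs 0 3, hs 1 0, hs 1 2, hs 1 3, hs 3 2]
  ring

theorem neg_exp {ε : ℝ} {D : Fin 4 → Fin 4 → ℝ} (h : NT ε D) (a b c d : ℝ)
    (hsum : a + b + c + d = 0) :
    2 * (a * b * D 0 1 + a * c * D 2 0 + a * d * D 3 0 + b * c * D 2 1 +
        b * d * D 3 1 + c * d * D 2 3) ≤ -ε * (a ^ 2 + b ^ 2 + c ^ 2 + d ^ 2) := by
  have h1 := h.neg ![a, b, c, d] (by simp [Fin.sum_univ_four]; linarith)
  rw [quad_exp D h.symm h.diag] at h1
  simpa [Fin.sum_univ_four] using h1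

theorem h_ok : St_H := by
  intro ε hε D hD
  have h23 : 0 < D 2 3 := by
    have := neg_exp hD 0 0 1 (-1) (by norm_num)
    nlinarith
  set l := Real.sqrt (D 2 3) with hl
  have hl0 : 0 < l := Real.sqrt_pos.2 h23
  have hl2 : l ^ 2 = D 2 3 := Real.sq_sqrt h23.le
  -- the axis coordinates
  have axis : ∀ x2 x3 : ℝ, ∃ s ρ : ℝ, x2 = s ^ 2 + ρ ∧ x3 = (s - l) ^ 2 + ρ := by
    intro x2 x3
    refine ⟨(x2 + l ^ 2 - x3) / (2 * l), x2 - ((x2 + l ^ 2 - x3) / (2 * l)) ^ 2, by ring, ?_⟩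
    field_simp
    ring
  obtain ⟨s0, ρ0, a2, a3⟩ := axis (D 2 0) (D 3 0)
  obtain ⟨s1, ρ1, b2, b3⟩ := axis (D 2 1) (D 3 1)
  have hρ0 : 0 < ρ0 := by
    have h1 := neg_exp hD 1 0 (-(1 - s0 / l)) (-(s0 / l)) (by ring)
    rw [a2, a3, ← hl2] at h1
    have h2 : 2 * (1 * 0 * D 0 1 + 1 * (-(1 - s0 / l)) * (s0 ^ 2 + ρ0) +
        1 * (-(s0 / l)) * ((s0 - l) ^ 2 + ρ0) + 0 * (-(1 - s0 / l)) * D 2 1 +
        0 * (-(s0 / l)) * D 3 1 + (-(1 - s0 / l)) * (-(s0 / l)) * l ^ 2) = - 2 * ρ0 := by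
      field_simp
      ring
    rw [h2] at h1
    nlinarith [sq_nonneg (1 - s0 / l), sq_nonneg (s0 / l), mul_nonneg hε.le (sq_nonneg (1 - s0 / l)),
      mul_nonneg hε.le (sq_nonneg (s0 / l))]
  have hρ1 : 0 < ρ1 := by
    have h1 := neg_exp hD 0 1 (-(1 - s1 / l)) (-(s1 / l)) (by ring)
    rw [b2, b3, ← hl2] at h1
    have h2 : 2 * (0 * 1 * D 0 1 + 0 * (-(1 - s1 / l)) * D 2 0 +
        0 * (-(s1 / l)) * D 3 0 + 1 * (-(1 - s1 / l)) * (s1 ^ 2 + ρ1) +
        1 * (-(s1 / l)) * ((s1 - l) ^ 2 + ρ1) + (-(1 - s1 / l)) * (-(s1 / l)) * l ^ 2) =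
        - 2 * ρ1 := by
      field_simp
      ring
    rw [h2] at h1
    nlinarith [sq_nonneg (1 - s1 / l), sq_nonneg (s1 / l), mul_nonneg hε.le (sq_nonneg (1 - s1 / l)),
      mul_nonneg hε.le (sq_nonneg (s1 / l))]
  set r0 := Real.sqrt ρ0 with hr0
  set r1 := Real.sqrt ρ1 with hr1
  have r0p : 0 < r0 := Real.sqrt_pos.2 hρ0
  have r1p : 0 < r1 := Real.sqrt_pos.2 hρ1
  have r0s : ρ0 = r0 ^ 2 := (Real.sq_sqrt hρ0.le).symm
  have r1s : ρ1 = r1 ^ 2 := (Real.sq_sqrt hρ1.le).symm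
  obtain ⟨γ, hγ⟩ : ∃ γ : ℝ, D 0 1 = (s0 - s1) ^ 2 + r0 ^ 2 + r1 ^ 2 - 2 * r0 * r1 * γ := by
    refine ⟨((s0 - s1) ^ 2 + r0 ^ 2 + r1 ^ 2 - D 0 1) / (2 * r0 * r1), ?_⟩
    field_simp
    ring
  have bound : ∀ σ : ℝ, σ ^ 2 = 1 → 0 < 1 + σ * γ := by
    intro σ hσ
    set d : ℝ := -(s0 / r0 + σ * s1 / r1) / l with hd
    have h1 := neg_exp hD (1 / r0) (σ / r1) (-(1 / r0) - σ / r1 - d) d (by ring)
    rw [a2, a3, b2, b3, ← hl2, hγ, r0s, r1s] at h1
    have h2 : 2 * (1 / r0 * (σ / r1) * ((s0 - s1) ^ 2 + r0 ^ 2 + r1 ^ 2 - 2 * r0 * r1 * γ) +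
        1 / r0 * (-(1 / r0) - σ / r1 - d) * (s0 ^ 2 + r0 ^ 2) +
        1 / r0 * d * ((s0 - l) ^ 2 + r0 ^ 2) +
        σ / r1 * (-(1 / r0) - σ / r1 - d) * (s1 ^ 2 + r1 ^ 2) +
        σ / r1 * d * ((s1 - l) ^ 2 + r1 ^ 2) +
        (-(1 / r0) - σ / r1 - d) * d * l ^ 2) = - 2 * (1 + σ ^ 2 + 2 * σ * γ) := by
      rw [hd]
      field_simp
      ring
    rw [h2, hσ] at h1
    have h3 : 0 < ε * ((1 / r0) ^ 2 + (σ / r1) ^ 2 + (-(1 / r0) - σ / r1 - d) ^ 2 + d ^ 2) := by
      have : 0 < (1 / r0) ^ 2 := by positivity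
      have h4 : 0 ≤ (σ / r1) ^ 2 := sq_nonneg _
      have h5 : 0 ≤ (-(1 / r0) - σ / r1 - d) ^ 2 := sq_nonneg _
      have h6 : 0 ≤ d ^ 2 := sq_nonneg _
      apply mul_pos hε
      linarith
    linarith
  have g1 : -1 < γ := by have := bound 1 (by norm_num); linarith
  have g2 : γ < 1 := by have := bound (-1) (by norm_num); linarith
  refine ⟨l, s0, s1, r0, r1, Real.arccos γ, hl0, r0p, r1p, ⟨?_, ?_⟩, hl2.symm, ?_, ?_, ?_, ?_, ?_⟩
  · exact Real.arccos_pos.2 g2
  · refine lt_of_le_of_ne (Real.arccos_le_pi _) fun h => ?_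
    rw [Real.arccos_eq_pi] at h
    linarith
  · rw [a2, r0s]
  · rw [a3, r0s]
  · rw [b2, r1s]
  · rw [b3, r1s]
  · rw [Real.cos_arccos g1.le g2.le, hγ]

/-- The mixture of two matrices along a set of pairs. -/
noncomputable def mix (D D' : Fin 4 → Fin 4 → ℝ) (S : Finset (Fin 4 × Fin 4)) :
    Fin 4 → Fin 4 → ℝ := fun i j =>
  open Classical in if (i, j) ∈ S ∨ (j, i) ∈ S then D i j else D' i j

theorem NT.perturb {ε : ℝ} {D E : Fin 4 → Fin 4 → ℝ} (hD : NT ε D)
    (hs : ∀ i j, E i j = E j i) (hd : ∀ i, E i i = 0)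
    (hb : ∀ i j, |E i j - D i j| ≤ ε / 8) : NT (ε / 2) E := by
  refine ⟨hs, hd, fun c hc => ?_⟩
  have h1 := hD.neg c hc
  have h2 : ∑ i, ∑ j, c i * c j * E i j = ∑ i, ∑ j, c i * c j * D i j +
      ∑ i, ∑ j, c i * c j * (E i j - D i j) := by
    rw [← Finset.sum_add_distrib]
    refine Finset.sum_congr rfl fun i _ => ?_
    rw [← Finset.sum_add_distrib]
    refine Finset.sum_congr rfl fun j _ => ?_
    ring
  have h3 : ∑ i, ∑ j, c i * c j * (E i j - D i j) ≤ ∑ i, ∑ j, |c i| * |c j| * (ε / 8) := by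
    refine Finset.sum_le_sum fun i _ => Finset.sum_le_sum fun j _ => ?_
    refine (le_abs_self _).trans ?_
    rw [abs_mul, abs_mul]
    exact mul_le_mul_of_nonneg_left (hb i j) (by positivity)
  have h4 : ∑ i, ∑ j, |c i| * |c j| * (ε / 8) = (∑ i, |c i|) ^ 2 * (ε / 8) := by
    rw [sq, Finset.sum_mul_sum, Finset.sum_mul]
    refine Finset.sum_congr rfl fun i _ => ?_
    rw [Finset.sum_mul]
  have h5 : (∑ i, |c i|) ^ 2 ≤ 4 * ∑ i, c i ^ 2 := by
    have := sq_sum_le_card_mul_sum_sq (s := (Finset.univ : Finset (Fin 4))) (f := fun i => |c i|)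
    simpa using this
  have hε : 0 ≤ ε := by
    have := hb 0 0
    have := abs_nonneg (E 0 0 - D 0 0)
    linarith
  have h6 : (∑ i, |c i|) ^ 2 * (ε / 8) ≤ (4 * ∑ i, c i ^ 2) * (ε / 8) :=
    mul_le_mul_of_nonneg_right h5 (by linarith)
  rw [h2]
  linarith

theorem step (F : (Fin 4 → Fin 4 → ℝ) → ℝ)
    (hF : ∀ ε > 0, ∀ D D' : Fin 4 → Fin 4 → ℝ, NT ε D → NT ε D' →
    ∀ a b : Fin 4, a ≠ b → D' a b ≤ D a b →
    (∀ i j, ¬ ((i = a ∧ j = b) ∨ (i = b ∧ j = a)) → D' i j = D i j) → F D' ≤ F D)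
    {ε : ℝ} (hε : 0 < ε) {D D' : Fin 4 → Fin 4 → ℝ} (hD : NT ε D) (hD' : NT ε D')
    (hle : ∀ i j, D' i j ≤ D i j) (hb : ∀ i j, |D i j - D' i j| ≤ ε / 8) : F D' ≤ F D := by
  classical
  have hmix : ∀ S, NT (ε / 2) (mix D D' S) := by
    intro S
    refine NT.perturb hD' ?_ ?_ ?_
    · intro i j
      unfold mix
      rw [hD.symm i j, hD'.symm i j]
      simp only [or_comm]
    · intro i
      unfold mix
      rw [hD.diag, hD'.diag]
      simp
    · intro i j
      unfold mix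
      split_ifs
      · exact hb i j
      · simp only [sub_self, abs_zero]; positivity
  have hind : ∀ S : Finset (Fin 4 × Fin 4), F D' ≤ F (mix D D' S) := by
    intro S
    induction S using Finset.induction_on with
    | empty =>
      have : mix D D' ∅ = D' := by
        funext i j
        simp [mix]
      rw [this]
    | insert x S hx ih =>
      obtain ⟨a, b⟩ := x
      refine ih.trans ?_
      by_cases hab : a = b
      · subst hab
        have : mix D D' (insert (a, a) S) = mix D D' S := by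
          funext i j
          unfold mix
          by_cases hij : i = a ∧ j = a
          · obtain ⟨rfl, rfl⟩ := hij
            rw [hD.diag, hD'.diag]
            simp
          · have h1 : (i, j) ≠ (a, a) := fun h => hij (by simpa using h)
            have h2 : (j, i) ≠ (a, a) := fun h => hij (by
              have := Prod.mk.inj h
              exact ⟨this.2, this.1⟩)
            simp only [Finset.mem_insert, h1, h2, false_or]
        rw [this]
      · refine hF (ε / 2) (by linarith) _ _ (hmix _) (hmix _) a b hab ?_ ?_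
        · unfold mix
          simp only [Finset.mem_insert, true_or, if_true]
          split_ifs
          · exact le_refl _
          · exact hle a b
        · intro i j hij
          unfold mix
          have h1 : (i, j) ≠ (a, b) := fun h => hij (Or.inl (by simpa using h))
          have h2 : (j, i) ≠ (a, b) := fun h => hij (Or.inr (by
              have := Prod.mk.inj h
              exact ⟨this.2, this.1⟩))
          simp only [Finset.mem_insert, h1, h2, false_or]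
  have h1 := hind Finset.univ
  have h2 : mix D D' Finset.univ = D := by
    funext i j
    simp [mix]
  rwa [h2] at h1

theorem i_ok : St_I := by
  intro F hF ε hε D D' hD hD' hle
  obtain ⟨M, hM⟩ : ∃ M : ℝ, ∀ i j, |D i j - D' i j| ≤ M := by
    refine ⟨∑ i, ∑ j, |D i j - D' i j|, fun i j => ?_⟩
    refine le_trans ?_ (Finset.single_le_sum (f := fun i => ∑ j, |D i j - D' i j|)
      (fun k _ => Finset.sum_nonneg fun m _ => abs_nonneg _) (Finset.mem_univ i))
    exact Finset.single_le_sum (f := fun j => |D i j - D' i j|) (fun k _ => abs_nonneg _)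
      (Finset.mem_univ j)
  have hM0 : 0 ≤ M := (abs_nonneg _).trans (hM 0 0)
  obtain ⟨N, hN⟩ := exists_nat_gt (max 1 (8 * M / ε))
  have hN1 : (1:ℝ) < N := (le_max_left _ _).trans_lt hN
  have hN0 : (0:ℝ) < N := by linarith
  have hN2 : M / N ≤ ε / 8 := by
    have : 8 * M / ε < N := (le_max_right _ _).trans_lt hN
    rw [div_lt_iff₀ hε] at this
    rw [div_le_iff₀ hN0]
    linarith
  set G : ℕ → Fin 4 → Fin 4 → ℝ := fun k i j => D' i j + (k / N) * (D i j - D' i j) with hG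
  have hGN : ∀ k ≤ N, NT ε (G k) := by
    intro k hk
    have ht : (k:ℝ) / N ≤ 1 := by
      rw [div_le_one hN0]
      exact_mod_cast hk
    have ht0 : (0:ℝ) ≤ k / N := by positivity
    refine ⟨fun i j => ?_, fun i => ?_, fun c hc => ?_⟩
    · simp only [hG]
      rw [hD.symm i j, hD'.symm i j]
    · simp only [hG]
      rw [hD.diag i, hD'.diag i]
      ring
    · have h1 := hD.neg c hc
      have h2 := hD'.neg c hc
      have h3 : ∑ i, ∑ j, c i * c j * G k i j = (1 - k / N) * ∑ i, ∑ j, c i * c j * D' i j +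
          (k / N) * ∑ i, ∑ j, c i * c j * D i j := by
        simp only [hG, Finset.mul_sum]
        rw [← Finset.sum_add_distrib]
        refine Finset.sum_congr rfl fun i _ => ?_
        rw [← Finset.sum_add_distrib]
        refine Finset.sum_congr rfl fun j _ => ?_
        ring
      rw [h3]
      nlinarith [mul_le_mul_of_nonneg_left h1 ht0, mul_le_mul_of_nonneg_left h2 (sub_nonneg.2 ht)]
  have hstep : ∀ k, k + 1 ≤ N → F (G k) ≤ F (G (k + 1)) := by
    intro k hk
    refine step F hF hε (hGN _ hk) (hGN _ (by omega)) ?_ ?_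
    · intro i j
      simp only [hG]
      have := hle i j
      have h1 : (k:ℝ) / N ≤ (((k + 1 : ℕ) : ℝ)) / N := by
        apply div_le_div_of_nonneg_right _ hN0.le
        push_cast; linarith
      have h2 : 0 ≤ D i j - D' i j := by linarith
      nlinarith [mul_le_mul_of_nonneg_right h1 h2]
    · intro i j
      simp only [hG]
      have e : D' i j + (((k + 1 : ℕ) : ℝ)) / N * (D i j - D' i j) -
          (D' i j + (k:ℝ) / N * (D i j - D' i j)) = (D i j - D' i j) / N := by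
        push_cast
        field_simp
        ring
      rw [e, abs_div, abs_of_pos hN0]
      exact (div_le_div_of_nonneg_right (hM i j) hN0.le).trans hN2
  have hall : ∀ k ≤ N, F (G 0) ≤ F (G k) := by
    intro k
    induction k with
    | zero => intro _; exact le_refl _
    | succ k ih => intro hk; exact (ih (by omega)).trans (hstep k hk)
  have h1 := hall N le_rfl
  have e0 : G 0 = D' := by
    funext i j
    simp [hG]
  have eN : G N = D := by
    funext i j
    simp only [hG]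
    rw [div_self hN0.ne']
    ring
  rwa [e0, eN] at h1

end Pool.Agent.R971.Per
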